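import Pool.Agent.Helper93.IA.StC

/-! Module CN2 of the project IA: small overlaps and small degrees. -/

set_option autoImplicit false

namespace Pool.Agent.Helper94.IAC

open Finset
open Pool.Agent.Helper93.IA

theorem hCN2 : StCN2 := by
  intro α β γ _ _ _ _ _ _ κ ρ η g' n m A QA LA S B QB C QC LC K U1 W1 U2 W2 U3 W3 hρ hg R1 R2 R3 R
  have hgn : 0 ≤ g' * n := mul_nonneg hg (Nat.cast_nonneg n)
  have hρn : 0 ≤ 3 / 2 * ρ * n := mul_nonneg (mul_nonneg (by norm_num) hρ) (Nat.cast_nonneg n)
  refine ⟨?_, ?_, ?_, ?_⟩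
  · intro a a' ha ha' hne
    have hsub : (univ.filter fun b' => (a, b') ∈ S ∧ (a', b') ∈ S) ⊆
        (univ.filter fun b' => (a, b') ∈ QA ∧ (a', b') ∈ QA) ∪
          ((univ.filter fun b' => (a, b') ∈ LA) ∪ (univ.filter fun b' => (a', b') ∈ LA)) := by
      intro b' hb'
      simp only [mem_union, mem_filter, mem_univ, true_and] at hb' ⊢
      rcases R.inA _ hb'.1 with h1 | h1
      · rcases R.inA _ hb'.2 with h2 | h2
        · exact Or.inl ⟨h1, h2⟩
        · exact Or.inr (Or.inr h2)
      · exact Or.inr (Or.inl h1)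
    have h1 := (card_le_card hsub).trans ((card_union_le _ _).trans
      (Nat.add_le_add_left (card_union_le _ _) _))
    rw [← d1_eq, ← d1_eq] at h1
    have h2 : (((univ.filter fun b' => (a, b') ∈ S ∧ (a', b') ∈ S).card : ℕ) : ℝ) ≤
        ((univ.filter fun b' => (a, b') ∈ QA ∧ (a', b') ∈ QA).card : ℝ) +
          ((d1 LA a : ℝ) + (d1 LA a' : ℝ)) := by exact_mod_cast h1
    have h3 := R1.cdA a a' ha ha' hne
    have h4 := R.lA.1 a
    have h5 := R.lA.1 a'
    linarith
  · intro a a' ha ha' hne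
    have hsub : (univ.filter fun c => (c, a) ∈ K ∧ (c, a') ∈ K) ⊆
        (univ.filter fun c => (c, a) ∈ QC ∧ (c, a') ∈ QC) ∪
          ((univ.filter fun c => (c, a) ∈ LC) ∪ (univ.filter fun c => (c, a') ∈ LC)) := by
      intro c hc
      simp only [mem_union, mem_filter, mem_univ, true_and] at hc ⊢
      rcases R.inC _ hc.1 with h1 | h1
      · rcases R.inC _ hc.2 with h2 | h2
        · exact Or.inl ⟨h1, h2⟩
        · exact Or.inr (Or.inr h2)
      · exact Or.inr (Or.inl h1)
    have h1 := (card_le_card hsub).trans ((card_union_le _ _).trans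
      (Nat.add_le_add_left (card_union_le _ _) _))
    rw [← d2_eq, ← d2_eq] at h1
    have h2 : (((univ.filter fun c => (c, a) ∈ K ∧ (c, a') ∈ K).card : ℕ) : ℝ) ≤
        ((univ.filter fun c => (c, a) ∈ QC ∧ (c, a') ∈ QC).card : ℝ) +
          ((d2 LC a : ℝ) + (d2 LC a' : ℝ)) := by exact_mod_cast h1
    have h3 := R1.cdC a a' ha ha' hne
    have h4 := R.lC.2 a
    have h5 := R.lC.2 a'
    linarith
  · intro b
    by_cases hb : b ∈ U2
    · have hsub : S ⊆ QA ∪ LA := fun e he => mem_union.2 (R.inA e he)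
      have h1 := (d2_mono hsub b).trans (d2_union_le QA LA b)
      have h2 : (d2 S b : ℝ) ≤ (d2 QA b : ℝ) + (d2 LA b : ℝ) := by exact_mod_cast h1
      have h3 := R2.inC b hb
      have h4 := R.lA.2 b
      linarith
    · have h0 : d2 S b = 0 := by
        unfold d2
        rw [card_eq_zero, filter_eq_empty_iff]
        intro e he h
        exact hb (h ▸ (R.oS e he).2)
      rw [h0]
      push_cast
      linarith
  · intro c
    by_cases hc : c ∈ U3
    · have hsub : K ⊆ QC ∪ LC := fun e he => mem_union.2 (R.inC e he)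
      have h1 := (d1_mono hsub c).trans (d1_union_le QC LC c)
      have h2 : (d1 K c : ℝ) ≤ (d1 QC c : ℝ) + (d1 LC c : ℝ) := by exact_mod_cast h1
      have h3 := R3.inA c hc
      have h4 := R.lC.1 c
      linarith
    · have h0 : d1 K c = 0 := by
        unfold d1
        rw [card_eq_zero, filter_eq_empty_iff]
        intro e he h
        exact hc (h ▸ (R.oK e he).1)
      rw [h0]
      push_cast
      linarith

end Pool.Agent.Helper94.IAC
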